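import Pool.Agent.Q191.SLpart

open Topology Matrix

namespace Pool.Agent.Results.MP_4f3c81_gt.NonLinearizable

/-- `α` is a `C^k`-action of `SL(n, ℝ)` on `(ℝ^m, 0)`: a group action, jointly continuous on
`SL(n, ℝ) × ℝ^m`, in which every group element acts by a `C^k` map (hence by a `C^k`
diffeomorphism, its inverse being the action of the inverse element) and fixes the origin. -/
structure IsCkAction (n m : ℕ) (k : ℕ∞)
    (α : SpecialLinearGroup (Fin n) ℝ → EuclideanSpace ℝ (Fin m) → EuclideanSpace ℝ (Fin m)) :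
    Prop where
  one_act : ∀ x, α 1 x = x
  mul_act : ∀ g h x, α (g * h) x = α g (α h x)
  continuous_act : Continuous
    fun p : SpecialLinearGroup (Fin n) ℝ × EuclideanSpace ℝ (Fin m) => α p.1 p.2
  contDiff_act : ∀ g, ContDiff ℝ k (α g)
  act_zero : ∀ g, α g 0 = 0

/-- `α` is `C^k`-linearizable near `0`: there are an open neighbourhood `U = φ.source` of `0`, a
`C^k` diffeomorphism `φ` from `U` onto an open set `φ.target` with `φ 0 = 0`, an open
neighbourhood `V ⊆ U` of `0` and a neighbourhood `N` of the identity of `SL(n, ℝ)` with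
`N · V ⊆ U` such that `φ (g · x) = ρ(g) (φ x)` for `g ∈ N`, `x ∈ V`, where
`ρ(g) = D(α g)(0)`. -/
def IsCkLinearizable (n m : ℕ) (k : ℕ∞)
    (α : SpecialLinearGroup (Fin n) ℝ → EuclideanSpace ℝ (Fin m) → EuclideanSpace ℝ (Fin m)) :
    Prop :=
  ∃ (φ : OpenPartialHomeomorph (EuclideanSpace ℝ (Fin m)) (EuclideanSpace ℝ (Fin m)))
    (V : Set (EuclideanSpace ℝ (Fin m))) (N : Set (SpecialLinearGroup (Fin n) ℝ)),
    IsOpen V ∧ 0 ∈ V ∧ V ⊆ φ.source ∧ N ∈ 𝓝 (1 : SpecialLinearGroup (Fin n) ℝ) ∧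
    (∀ g ∈ N, ∀ x ∈ V, α g x ∈ φ.source) ∧
    ContDiffOn ℝ k φ φ.source ∧ ContDiffOn ℝ k φ.symm φ.target ∧ φ 0 = 0 ∧
    ∀ g ∈ N, ∀ x ∈ V, φ (α g x) = fderiv ℝ (α g) 0 (φ x)

/-- For all `n ≥ 2`, all `m > n` and all finite `k ≥ 1` there is a `C^k`-action of `SL(n, ℝ)` on
`(ℝ^m, 0)` which is not `C^k`-linearizable. -/
theorem result (n m k : ℕ) (hn : 2 ≤ n) (hm : n < m) (hk : 1 ≤ k) :
    ∃ α : SpecialLinearGroup (Fin n) ℝ → EuclideanSpace ℝ (Fin m) → EuclideanSpace ℝ (Fin m),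
      IsCkAction n m k α ∧ ¬ IsCkLinearizable n m k α := by
  have : Nonempty (Fin m) := ⟨⟨n, hm⟩⟩
  have : Nonempty (Fin n) := ⟨⟨0, by omega⟩⟩
  have hrep : ∀ g : SpecialLinearGroup (Fin n) ℝ, ∃ c : ℝ, 0 < c ∧
      ∀ z, c * ‖z‖ ≤ ‖Q191.rep hm g z‖ := fun g => Q191.rep_low hm g
  set α : SpecialLinearGroup (Fin n) ℝ → EuclideanSpace ℝ (Fin m) → EuclideanSpace ℝ (Fin m) :=
    fun g => Q191.beta hk (Q191.vt hm) (Q191.vt_norm hm) (Q191.ve_norm hm).le (Q191.rep hm g)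
    with hα
  refine ⟨α, ⟨?_, ?_, ?_, ?_, ?_⟩, ?_⟩
  · intro x
    simp only [hα]
    rw [Q191.rep_one]
    exact Q191.beta_id _ _ _ _ _
  · intro g h x
    simp only [hα]
    rw [Q191.rep_mul]
    exact Q191.beta_comp _ _ _ _ _ _ _
  · have h1 : Continuous fun p : SpecialLinearGroup (Fin n) ℝ × EuclideanSpace ℝ (Fin m) =>
        Q191.rep hm p.1 (Q191.psi hk (Q191.vt hm) (Q191.vt_norm hm) (Q191.ve_norm hm).le p.2) :=
      (Q191.rep_continuous hm).comp (continuous_fst.prodMk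
        ((Q191.psi hk (Q191.vt hm) (Q191.vt_norm hm) (Q191.ve_norm hm).le).continuous.comp
          continuous_snd))
    exact (Q191.psi hk (Q191.vt hm) (Q191.vt_norm hm) (Q191.ve_norm hm).le).symm.continuous.comp h1
  · intro g
    obtain ⟨c, hc, hlow⟩ := hrep g
    exact Q191.beta_contDiff hk (Q191.vt hm) (Q191.vt_norm hm) (Q191.ve_norm hm).le
      (Q191.rep_ve hm g) hc hlow (Q191.vt_rep hm g)
  · intro g
    exact Q191.beta_zero _ _ _ _ _
  · rintro ⟨φ, V, N, hVo, hV0, hVs, hN, -, hφ, hφs, hφ0, heq⟩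
    refine Q191.not_lin hk (Q191.vt hm) (Q191.vt_norm hm) (Q191.ve_norm hm) (Q191.vt_ve hm)
      (Q191.prj hm) Q191.inj (Q191.prj_inj hm) (Q191.prj_ve hm) (Q191.mat '' N) ?_ φ V hVo hV0 hVs
      hφ hφs hφ0 ?_
    · intro u hu
      have hu' : u.ofLp ≠ 0 := by
        intro h
        apply hu
        ext i
        exact congrFun h i
      obtain ⟨g, hg, l, hl0, hl1, hgl⟩ := Q191.exists_contracting hn hN u.ofLp hu'
      refine ⟨Q191.mat g, ⟨g, hg, rfl⟩, l, hl0, hl1, ?_⟩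
      rw [Q191.mat_apply, hgl]
      rfl
    · rintro _ ⟨g, hg, rfl⟩ x hx
      obtain ⟨c, hc, hlow⟩ := hrep g
      have h1 := heq g hg x hx
      have h2 : fderiv ℝ (α g) 0 = Q191.rep hm g :=
        Q191.beta_fderiv_zero hk (Q191.vt hm) (Q191.vt_norm hm) (Q191.ve_norm hm).le
          (Q191.rep_ve hm g) hc hlow (Q191.vt_rep hm g)
      rw [h2] at h1
      exact h1

end Pool.Agent.Results.MP_4f3c81_gt.NonLinearizable
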